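import Mathlib
import Pool.Agent.Lib.MP_34bdde_co.Final

set_option autoImplicit false

namespace Pool.Agent.Results.MP_34bdde_co.OneHalfCodegree

theorem result : ∀ ε : ℝ, 0 < ε → ∃ n₀ : ℕ, ∀ n : ℕ, n₀ ≤ n → ∀ d : ℕ, Even d →
    ∀ (G F : SimpleGraph (Fin n)) [DecidableRel G.Adj] [DecidableRel F.Adj],
      G.IsRegularOfDegree d →
      ((1 / 2 + ε) * (n : ℝ) ≤ d ∨
        ∀ u v : Fin n, u ≠ v → ε * (n : ℝ) ≤ (G.commonNeighbors u v).ncard) →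
      F.IsRegularOfDegree 2 →
      (∀ (v : Fin n) (c : F.Walk v v), c.IsCycle → Even c.length) →
      (∀ (v : Fin n) (c : F.Walk v v), c.IsCycle → c.length ≠ 4) →
      ∃ (k : ℕ) (H : Fin k → SimpleGraph (Fin n)),
        (∀ i, Nonempty (H i ≃g F)) ∧ (∀ i, H i ≤ G) ∧
        ∀ e ∈ G.edgeSet, ∃! i, e ∈ (H i).edgeSet := by
  intro ε hε
  obtain ⟨n0, h⟩ := Pool.Agent.Lib.MP_34bdde_co.decomp ε hε
  obtain ⟨n1, h'⟩ := Pool.Agent.Lib.MP_34bdde_co.decomp_dense ε hε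
  refine ⟨n0 + n1 + 2, fun n hn d hd G F _ _ hG hc hF hev h4 => ?_⟩
  have e1 := Pool.Agent.Lib.MP_34bdde_co.cnt_of_regular G hG
  have e2 := Pool.Agent.Lib.MP_34bdde_co.cnt_of_regular F hF
  have e3 : Fintype.card (Fin n) = n := Fintype.card_fin n
  rcases hc with hc | hc
  · exact h (Fin n) G F d (by omega) hd e1 e2 hev (Or.inr ⟨by simpa using hc, h4⟩)
  · exact h' (Fin n) G F d (by omega) hd e1 e2 hev (Or.inr
      ⟨Pool.Agent.Lib.MP_34bdde_co.dense_of_pairs G (by omega) (by simpa using hc), h4⟩)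

end Pool.Agent.Results.MP_34bdde_co.OneHalfCodegree
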