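import Mathlib
import Pool.Agent.Lib.MP_34bdde_co.Final

set_option autoImplicit false

namespace Pool.Agent.Results.MP_34bdde_co.TwoThirds

theorem result : ∀ ε : ℝ, 0 < ε → ∃ n₀ : ℕ, ∀ n : ℕ, n₀ ≤ n → ∀ d : ℕ, Even d →
    (2 / 3 + ε) * (n : ℝ) ≤ d →
    ∀ (G F : SimpleGraph (Fin n)) [DecidableRel G.Adj] [DecidableRel F.Adj],
      G.IsRegularOfDegree d → F.IsRegularOfDegree 2 →
      (∀ (v : Fin n) (c : F.Walk v v), c.IsCycle → Even c.length) →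
      ∃ (k : ℕ) (H : Fin k → SimpleGraph (Fin n)),
        (∀ i, Nonempty (H i ≃g F)) ∧ (∀ i, H i ≤ G) ∧
        ∀ e ∈ G.edgeSet, ∃! i, e ∈ (H i).edgeSet := by
  intro ε hε
  obtain ⟨n0, h⟩ := Pool.Agent.Lib.MP_34bdde_co.decomp ε hε
  refine ⟨n0, fun n hn d hd hdn G F _ _ hG hF hev => ?_⟩
  exact h (Fin n) G F d (by simpa using hn) hd (Pool.Agent.Lib.MP_34bdde_co.cnt_of_regular G hG)
    (Pool.Agent.Lib.MP_34bdde_co.cnt_of_regular F hF) hev (Or.inl (by simpa using hdn))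

end Pool.Agent.Results.MP_34bdde_co.TwoThirds
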